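import Pool.Agent.helper32.PN.Spec

/-!
# Project PN (MP_405bd9_al), row HOL: outside parts, holes, removing and adding ribbons
-/

set_option autoImplicit false

namespace Pool.Agent.PN

open Module Polynomial Pool.Agent.helper27.PC

/-- positions after a change of one bead -/
theorem HOL_pos (S : St) (b : Bool) (p q : ℕ) (u : Bool) :
    SD_pos u (insert (b, q) (S.erase (b, p))) =
      if u = b then insert q ((SD_pos u S).erase p) else SD_pos u S := by
  ext x
  rw [SD_mem_pos]
  rw [Finset.mem_insert, Finset.mem_erase]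
  split_ifs with h
  · subst h
    rw [Finset.mem_insert, Finset.mem_erase, SD_mem_pos]
    simp [Prod.ext_iff]
  · rw [SD_mem_pos]
    simp [Prod.ext_iff, h]

theorem HOL_sum (P : Finset ℕ) (p q : ℕ) (hp : p ∈ P) (hq : q ∉ P) :
    (insert q (P.erase p)).card = P.card ∧ ∑ x ∈ insert q (P.erase p), x + p = ∑ x ∈ P, x + q := by
  have h1 : q ∉ P.erase p := fun h => hq (Finset.mem_of_mem_erase h)
  have h2 := Finset.add_sum_erase P (fun x => x) hp
  have h3 : 0 < P.card := Finset.card_pos.2 ⟨_, hp⟩
  constructor
  · rw [Finset.card_insert_of_notMem h1, Finset.card_erase_of_mem hp]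
    omega
  · rw [Finset.sum_insert h1]
    omega

/-- the cardinalities and the sum after a change of one bead -/
theorem HOL_chg (S : St) (b : Bool) (p q : ℕ) (hp : (b, p) ∈ S) (hq : (b, q) ∉ S) :
    (∀ u, (SD_pos u (insert (b, q) (S.erase (b, p)))).card = (SD_pos u S).card) ∧
    (∑ x ∈ SD_pos true (insert (b, q) (S.erase (b, p))), x +
      ∑ x ∈ SD_pos false (insert (b, q) (S.erase (b, p))), x) + p =
    (∑ x ∈ SD_pos true S, x + ∑ x ∈ SD_pos false S, x) + q := by
  have hp' : p ∈ SD_pos b S := SD_mem_pos.2 hp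
  have hq' : q ∉ SD_pos b S := fun h => hq (SD_mem_pos.1 h)
  obtain ⟨h1, h2⟩ := HOL_sum _ p q hp' hq'
  constructor
  · intro u
    rw [HOL_pos]
    split_ifs with h
    · rw [h]; exact h1
    · rfl
  · rw [HOL_pos, HOL_pos]
    cases b
    · rw [if_neg (by simp), if_pos rfl]
      omega
    · rw [if_pos rfl, if_neg (by simp)]
      omega

theorem HOL (hCHR : CHR_stmt) : HOL_stmt := by
  intro s K i T hT
  have hC := hCHR.2 s K
  obtain ⟨c1, c2, c3⟩ := (hC i T).1 hT
  have hss : ∑ p ∈ SD_pos true T, p + ∑ p ∈ SD_pos false T, p =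
      ∑ p ∈ SD_pos s T, p + ∑ p ∈ SD_pos (!s) T, p := by
    cases s
    · simp [add_comm]
    · simp
  have hrs : ∑ p ∈ Finset.range (K + 1), p = ∑ p ∈ Finset.range K, p + K :=
    Finset.sum_range_succ _ _
  refine ⟨?_, ?_, ?_, ?_⟩
  · intro u p hup
    have hup' : p ∉ SD_pos u T := fun h => hup (SD_mem_pos.1 h)
    have h1 := SD_minsum2 hup'
    by_cases hu : u = s
    · subst hu
      have h2 := SD_minsum (SD_pos (!u) T)
      rw [c1, hrs] at h1
      rw [c2] at h2
      omega
    · have hu' : u = !s := by cases u <;> cases s <;> simp_all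
      subst hu'
      have h2 := SD_minsum (SD_pos s T)
      rw [c2] at h1
      rw [c1, hrs] at h2
      omega
  · intro p hup
    have hup' : p ∉ SD_pos s T := fun h => hup (SD_mem_pos.1 h)
    have h1 := SD_minsum2 hup'
    have h2 := SD_minsum (SD_pos (!s) T)
    rw [c1, hrs] at h1
    rw [c2] at h2
    omega
  · intro a ha y hy
    unfold remv at hy
    rw [Finset.mem_filter] at hy
    obtain ⟨hyT, hay, hdn⟩ := hy
    obtain ⟨b, x⟩ := y
    simp only at hay
    have hdn' : (b, x - a) ∉ T := hdn
    have hrem : rem a T (b, x) = insert (b, x - a) (T.erase (b, x)) := rfl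
    obtain ⟨g1, g2⟩ := HOL_chg T b x (x - a) hyT hdn'
    rw [← hrem] at g1 g2
    have hss' : ∑ p ∈ SD_pos true (rem a T (b, x)), p + ∑ p ∈ SD_pos false (rem a T (b, x)), p =
        ∑ p ∈ SD_pos s (rem a T (b, x)), p + ∑ p ∈ SD_pos (!s) (rem a T (b, x)), p := by
      cases s
      · simp [add_comm]
      · simp
    have h1 := SD_minsum (SD_pos s (rem a T (b, x)))
    have h2 := SD_minsum (SD_pos (!s) (rem a T (b, x)))
    rw [g1, c1, hrs] at h1
    rw [g1, c2] at h2
    have hai : a ≤ i := by omega
    have hne : (b, x) ≠ (b, x - a) := by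
      intro h
      have := (Prod.ext_iff.1 h).2
      simp only at this
      omega
    have hupdn : up a (dn a (b, x)) = (b, x) := by
      unfold up dn
      simp only
      rw [Nat.sub_add_cancel hay]
    refine ⟨hai, ?_, ?_, ?_, ?_⟩
    · rw [hC]
      refine ⟨by rw [g1, c1], by rw [g1, c2], ?_⟩
      omega
    · unfold addable
      rw [Finset.mem_filter]
      refine ⟨?_, ?_⟩
      · rw [hrem]
        exact Finset.mem_insert_self _ _
      · rw [hupdn, hrem, Finset.mem_insert, Finset.mem_erase]
        push Not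
        exact ⟨hne, fun h => absurd rfl h⟩
    · unfold move
      rw [hupdn, hrem]
      change insert (b, x) ((insert (b, x - a) (T.erase (b, x))).erase (b, x - a)) = T
      rw [Finset.erase_insert (fun h => hdn' (Finset.mem_of_mem_erase h)),
        Finset.insert_erase hyT]
    · unfold cnt
      apply congrArg
      rw [hrem]
      ext ⟨u, z⟩
      unfold dn
      simp only [Finset.mem_filter, Finset.mem_insert, Finset.mem_erase, Prod.mk.injEq, ne_eq]
      constructor
      · rintro ⟨h3 | h3, h4, h5, h6⟩
        · omega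
        · exact ⟨h3.2, h4, h5, h6⟩
      · rintro ⟨h3, h4, h5, h6⟩
        refine ⟨Or.inr ⟨?_, h3⟩, h4, h5, h6⟩
        rintro ⟨-, h7⟩
        omega
  · intro a ha l hl
    unfold addable at hl
    rw [Finset.mem_filter] at hl
    obtain ⟨hlT, hup⟩ := hl
    obtain ⟨b, x⟩ := l
    have hup' : (b, x + a) ∉ T := hup
    have hmv : move a T (b, x) = insert (b, x + a) (T.erase (b, x)) := rfl
    obtain ⟨g1, g2⟩ := HOL_chg T b x (x + a) hlT hup'
    rw [← hmv] at g1 g2
    have hne : (b, x) ≠ (b, x + a) := by
      intro h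
      have := (Prod.ext_iff.1 h).2
      simp only at this
      omega
    have hdnup : dn a (up a (b, x)) = (b, x) := by
      unfold up dn
      simp only
      rw [Nat.add_sub_cancel]
    refine ⟨?_, ?_, ?_⟩
    · rw [hC]
      refine ⟨by rw [g1, c1], by rw [g1, c2], ?_⟩
      omega
    · unfold remv
      rw [Finset.mem_filter]
      refine ⟨?_, ?_, ?_⟩
      · rw [hmv]
        exact Finset.mem_insert_self _ _
      · exact Nat.le_add_left _ _
      · rw [hdnup, hmv, Finset.mem_insert, Finset.mem_erase]
        push Not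
        exact ⟨hne, fun h => absurd rfl h⟩
    · unfold rem
      rw [hdnup, hmv]
      change insert (b, x) ((insert (b, x + a) (T.erase (b, x))).erase (b, x + a)) = T
      rw [Finset.erase_insert (fun h => hup' (Finset.mem_of_mem_erase h)),
        Finset.insert_erase hlT]

end Pool.Agent.PN
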